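import Pool.Agent.H51.MV.CompleteCdIndex

/-!
# The complete cd-index of a Bruhat interval has nonnegative coefficients

Problem MP_dcf703_co, Q1: the affirmative answer, for every Coxeter system. The definitions below are
those of the problem. The frozen statement S11863 is proved separately.
-/

set_option autoImplicit false

open Classical

namespace Pool.Agent.Results.MP_dcf703_co.CompleteCdIndex

open Pool.H51.MV.CompleteCdIndex

variable {B W : Type} [Group W] {M : CoxeterMatrix B} (cs : CoxeterSystem M W)

open Pool.Agent.H52.CD in
/-- For all `u`, `v` in any Coxeter group: there are finitely many directed paths from `u` to `v` in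
the Bruhat graph, and there is a noncommutative polynomial `Φ` in `c`, `d` with nonnegative
coefficients which, for every reflection ordering, is the unique one with
`Φ(a + b, a b + b a) = ψ_(u,v)(a, b)`: it is the complete cd-index of `(u, v)`. -/
theorem result {B W : Type} [Group W] {M : CoxeterMatrix B} (cs : CoxeterSystem M W) (u v : W) :
    (paths cs u v).Finite ∧
    ∃ Φ : NC, (∀ w : FreeMonoid (Fin 2), 0 ≤ Φ.coeff w) ∧
      ∀ lt : Refl cs → Refl cs → Prop, IsReflectionOrdering cs lt →
        cdSubst Φ = psi cs lt u v ∧ ∀ Φ' : NC, cdSubst Φ' = psi cs lt u v → Φ' = Φ :=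
  Pool.H51.MV.CompleteCdIndex.result cs u v

end Pool.Agent.Results.MP_dcf703_co.CompleteCdIndex
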